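import Mathlib
import Pool.Agent.N988.EA.Stm

/-!
# Project EA, part GAP: the defects are summable
-/

set_option autoImplicit false

open MeasureTheory Set
open scoped ENNReal

namespace Pool.Agent.N713.EA

open Pool.Agent.N988.EA

noncomputable section

theorem tanh_one_sub (x : ℝ) : 1 - Real.tanh x = 2 * Real.exp (-x) / (Real.exp x + Real.exp (-x)) := by
  have h1 : 0 < Real.exp x + Real.exp (-x) := by positivity
  rw [Real.tanh_eq_sinh_div_cosh, Real.sinh_eq, Real.cosh_eq]
  field_simp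
  ring

theorem tanh_le (x : ℝ) : 1 - Real.tanh x ≤ 2 * Real.exp (-(2 * x)) := by
  rw [tanh_one_sub, div_le_iff₀ (by positivity)]
  have h1 : Real.exp (-(2 * x)) * Real.exp x = Real.exp (-x) := by
    rw [← Real.exp_add]; congr 1; ring
  have h2 : 0 < Real.exp (-(2 * x)) * Real.exp (-x) := by positivity
  nlinarith

theorem tanh_ge (x : ℝ) : 0 ≤ 1 - Real.tanh x := by
  rw [tanh_one_sub]
  positivity

theorem tanh_le_one {x : ℝ} (hx : 0 ≤ x) : 1 - Real.tanh x ≤ 1 := by
  rw [tanh_one_sub, div_le_one (by positivity)]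
  have : Real.exp (-x) ≤ Real.exp x := Real.exp_le_exp.2 (by linarith)
  linarith

theorem gp_nonneg (a b : ℝ) : 0 ≤ gp a b := tanh_ge _

theorem gp_le_one (a b : ℝ) : gp a b ≤ 1 := tanh_le_one (abs_nonneg _)

theorem gp_le (a b t : ℝ) (h : t ≤ |(|a| - |b|)|) : gp a b ≤ 2 * Real.exp (-(2 * t)) := by
  refine (tanh_le _).trans ?_
  have : Real.exp (-(2 * |(|a| - |b|)|)) ≤ Real.exp (-(2 * t)) := Real.exp_le_exp.2 (by linarith)
  linarith

/-- windows -/
theorem win (ν : Measure ℝ) (w : ℝ) (hw : 0 ≤ w) (Q : ℝ≥0∞) (h : ∀ x, ν (Ico x (x + w)) ≤ Q)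
    (y : ℝ) (m : ℕ) : ν (Ico y (y + m * w)) ≤ m * Q := by
  induction m with
  | zero => simp
  | succ m ih =>
    have h1 : Ico y (y + ((m + 1 : ℕ) : ℝ) * w) ⊆ Ico y (y + m * w) ∪
        Ico (y + m * w) (y + m * w + w) := by
      intro x hx
      by_cases hx' : x < y + m * w
      · exact Or.inl ⟨hx.1, hx'⟩
      · refine Or.inr ⟨not_lt.1 hx', ?_⟩
        have := hx.2
        push_cast at this
        linarith
    calc ν (Ico y (y + ((m + 1 : ℕ) : ℝ) * w))
        ≤ ν (Ico y (y + m * w)) + ν (Ico (y + m * w) (y + m * w + w)) :=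
          (measure_mono h1).trans (measure_union_le _ _)
      _ ≤ m * Q + Q := add_le_add ih (h _)
      _ = ((m + 1 : ℕ) : ℝ≥0∞) * Q := by push_cast; ring

theorem cover (ν : Measure ℝ) (w t : ℝ) (hw : 0 ≤ w) (Q : ℝ≥0∞)
    (h : ∀ x, ν (Ico x (x + w)) ≤ Q) (m : ℕ) (hm : 2 * t ≤ m * w) (a : ℝ) :
    ν {b : ℝ | |(|a| - |b|)| < t} ≤ 2 * (m * Q) := by
  have h1 : {b : ℝ | |(|a| - |b|)| < t} ⊆ Ico (|a| - t) (|a| - t + m * w) ∪
      Ico (-|a| - t) (-|a| - t + m * w) := by
    intro b hb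
    have hb' : |(|a| - |b|)| < t := hb
    rw [abs_lt] at hb'
    rcases abs_cases b with ⟨h2, -⟩ | ⟨h2, -⟩
    · left
      constructor <;> linarith [hb'.1, hb'.2]
    · right
      constructor <;> linarith [hb'.1, hb'.2]
  calc ν {b : ℝ | |(|a| - |b|)| < t} ≤ ν (Ico (|a| - t) (|a| - t + m * w)) +
        ν (Ico (-|a| - t) (-|a| - t + m * w)) := (measure_mono h1).trans (measure_union_le _ _)
    _ ≤ m * Q + m * Q := add_le_add (win ν w hw Q h _ m) (win ν w hw Q h _ m)
    _ = 2 * (m * Q) := by ring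

theorem int_gp (ν : Measure ℝ) [IsProbabilityMeasure ν] (t Q : ℝ) (hQ : 0 ≤ Q)
    (h : ∀ a, ν {b : ℝ | |(|a| - |b|)| < t} ≤ ENNReal.ofReal Q) :
    ∫ p : ℝ × ℝ, gp p.1 p.2 ∂(ν.prod ν) ≤ 2 * Real.exp (-(2 * t)) + Q := by
  set A : Set (ℝ × ℝ) := {p | |(|p.1| - |p.2|)| < t} with hA
  have hAm : MeasurableSet A := by
    have : Continuous fun p : ℝ × ℝ => |(|p.1| - |p.2|)| := by fun_prop
    exact (isOpen_lt this continuous_const).measurableSet
  have hmeas : (ν.prod ν) A ≤ ENNReal.ofReal Q := by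
    rw [Measure.prod_apply hAm]
    calc ∫⁻ a, ν (Prod.mk a ⁻¹' A) ∂ν ≤ ∫⁻ _, ENNReal.ofReal Q ∂ν :=
          lintegral_mono fun a => h a
      _ = ENNReal.ofReal Q := by rw [lintegral_const, measure_univ, mul_one]
  have hreal : (ν.prod ν).real A ≤ Q := by
    rw [Measure.real]
    exact ENNReal.toReal_le_of_le_ofReal hQ hmeas
  calc ∫ p : ℝ × ℝ, gp p.1 p.2 ∂(ν.prod ν)
      ≤ ∫ p : ℝ × ℝ, (2 * Real.exp (-(2 * t)) + A.indicator (fun _ => (1 : ℝ)) p)
          ∂(ν.prod ν) := by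
        refine integral_mono_of_nonneg (Filter.Eventually.of_forall fun p => gp_nonneg _ _)
          ((integrable_const _).add ((integrable_const _).indicator hAm))
          (Filter.Eventually.of_forall fun p => ?_)
        by_cases hp : p ∈ A
        · show gp p.1 p.2 ≤ 2 * Real.exp (-(2 * t)) + A.indicator (fun _ => (1 : ℝ)) p
          rw [indicator_of_mem hp]
          have h1 := gp_le_one p.1 p.2
          have h2 := Real.exp_pos (-(2 * t))
          linarith
        · show gp p.1 p.2 ≤ 2 * Real.exp (-(2 * t)) + A.indicator (fun _ => (1 : ℝ)) p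
          rw [indicator_of_notMem hp, add_zero]
          exact gp_le _ _ _ (not_lt.1 hp)
    _ = 2 * Real.exp (-(2 * t)) + (ν.prod ν).real A := by
        rw [integral_add (integrable_const _) ((integrable_const _).indicator hAm),
          integral_const, integral_indicator_const _ hAm, probReal_univ, one_smul, smul_eq_mul,
          mul_one]
    _ ≤ 2 * Real.exp (-(2 * t)) + Q := by linarith

theorem t_GAP (h1 : S_WIN) (h2 : S_H) : S_GAP := by
  intro b hb μ hμ hsym r hr hwin ε hε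
  obtain ⟨C, q, hC, hq0, hq1, c, hc, R₀, hR₀, hW⟩ := h1
  -- the summable majorant
  set g : ℕ → ℝ := fun j => 2 * Real.exp (-(2 * (j : ℝ))) + 4 * (j + 1) * (C * q ^ j) with hg
  have hg0 : ∀ j, 0 ≤ g j := fun j => by positivity
  have hgs : Summable g := by
    have e1 : Summable fun j : ℕ => (Real.exp (-2)) ^ j :=
      summable_geometric_of_lt_one (Real.exp_pos _).le (by rw [Real.exp_lt_one_iff]; norm_num)
    have hqn : ‖q‖ < 1 := by rw [Real.norm_eq_abs, abs_of_pos hq0]; exact hq1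
    have e2 : Summable fun j : ℕ => (j : ℝ) ^ 1 * q ^ j :=
      summable_pow_mul_geometric_of_norm_lt_one 1 hqn
    have e3 : Summable fun j : ℕ => q ^ j := summable_geometric_of_lt_one hq0.le hq1
    refine (((e1.mul_left 2).add ((e2.add e3).mul_left (4 * C)))).congr fun j => ?_
    rw [hg]
    show 2 * Real.exp (-2) ^ j + 4 * C * ((j : ℝ) ^ 1 * q ^ j + q ^ j) =
      2 * Real.exp (-(2 * (j : ℝ))) + 4 * (j + 1) * (C * q ^ j)
    rw [← Real.exp_nat_mul]
    have : (j : ℝ) * -2 = -(2 * (j : ℝ)) := by ring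
    rw [this]
    ring
  obtain ⟨k, hk⟩ : ∃ k : ℕ, ∀ n, ∑ j ∈ Finset.Ico k n, g j ≤ ε := by
    have h3 := hgs.hasSum.tendsto_sum_nat
    have h4 : ∀ᶠ k in Filter.atTop, (∑' j, g j) - ε < ∑ j ∈ Finset.range k, g j :=
      h3.eventually (lt_mem_nhds (by linarith))
    obtain ⟨k, hk⟩ := h4.exists
    refine ⟨k, fun n => ?_⟩
    rcases le_total k n with hkn | hkn
    · rw [Finset.sum_Ico_eq_sub _ hkn]
      have h5 : ∑ j ∈ Finset.range n, g j ≤ ∑' j, g j := hgs.sum_le_tsum _ fun j _ => hg0 j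
      linarith
    · rw [Finset.Ico_eq_empty_of_le hkn, Finset.sum_empty]
      exact hε.le
  refine ⟨max (R₀ / r) (1 / (c * r)), k, by positivity, fun β hβ n => ?_⟩
  have hcr : 0 < c * r := by positivity
  have hβ1 : R₀ ≤ β * r := by
    rw [← div_le_iff₀ hr]
    exact (le_max_left _ _).trans hβ
  have hβ2 : 1 ≤ c * (β * r) := by
    have := (le_max_right _ _).trans hβ
    rw [div_le_iff₀ hcr] at this
    linarith
  have hβ0 : 0 < β := by
    have h5 : 0 < β * r := lt_of_lt_of_le hR₀ hβ1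
    exact (pos_iff_pos_of_mul_pos h5).2 hr
  have hmm : Measurable fun x : ℝ => β * x := measurable_const_mul β
  set μβ : Measure ℝ := μ.map fun x => β * x with hμβ
  haveI : IsProbabilityMeasure μβ := Measure.isProbabilityMeasure_map hmm.aemeasurable
  have hsβ : μβ.map (fun x => -x) = μβ := by
    rw [hμβ, Measure.map_map measurable_neg hmm]
    have h5 : (fun x : ℝ => -x) ∘ (fun x => β * x) = (fun x => β * x) ∘ fun x => -x := by
      funext x
      simp
    rw [h5, ← Measure.map_map hmm measurable_neg, hsym]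
  have hwβ : ∀ x, μβ (Ico x (x + β * r)) ≤ 1 / 2 := by
    intro x
    rw [hμβ, Measure.map_apply hmm measurableSet_Ico]
    refine (measure_mono ?_).trans (hwin (x / β))
    intro y hy
    obtain ⟨h5, h6⟩ := hy
    refine ⟨?_, ?_⟩
    · rw [div_le_iff₀ hβ0]
      linarith
    · have h7 : β * y < β * (x / β + r) := by
        rw [mul_add, mul_div_cancel₀ _ hβ0.ne']
        exact h6
      exact lt_of_mul_lt_mul_left h7 hβ0.le
  have hW' := hW b μβ hb hsβ (β * r) hβ1 hwβ
  refine le_trans (Finset.sum_le_sum fun j _ => ?_) (hk n)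
  haveI : IsProbabilityMeasure (lw μβ b j) := by
    obtain ⟨h5, h6, -⟩ := h2 μβ b j
    rw [← h6]
    haveI : IsProbabilityMeasure (P μβ b j) := by unfold P; infer_instance
    exact Measure.isProbabilityMeasure_map h5.aemeasurable
  set w : ℝ := c * (β * r) with hwd
  have h8 : ∀ a, (lw μβ b j) {b' : ℝ | |(|a| - |b'|)| < w + j} ≤
      ENNReal.ofReal (4 * (j + 1) * (C * q ^ j)) := by
    intro a
    refine (cover (lw μβ b j) w (w + j) (by linarith) _ (hW' j) (2 * j + 2) ?_ a).trans ?_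
    · push_cast
      nlinarith [Nat.cast_nonneg (α := ℝ) j]
    · have e1 : ((2 * j + 2 : ℕ) : ℝ≥0∞) = ENNReal.ofReal (2 * j + 2) := by
        rw [← ENNReal.ofReal_natCast]
        push_cast
        rfl
      have e2 : (2 : ℝ≥0∞) = ENNReal.ofReal 2 := by
        rw [ENNReal.ofReal_ofNat]
      rw [e1, e2, ← ENNReal.ofReal_mul (by positivity), ← ENNReal.ofReal_mul (by positivity)]
      refine ENNReal.ofReal_le_ofReal (le_of_eq ?_)
      ring
  refine (int_gp (lw μβ b j) (w + j) _ (by positivity) h8).trans ?_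
  have h9 : Real.exp (-(2 * (w + j))) ≤ Real.exp (-(2 * (j : ℝ))) :=
    Real.exp_le_exp.2 (by linarith)
  show _ ≤ 2 * Real.exp (-(2 * (j : ℝ))) + 4 * (j + 1) * (C * q ^ j)
  linarith

end

end Pool.Agent.N713.EA
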