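import Pool.Agent.N585.WC.Defs

/-!
# WC/7: the group `2^ω₁` is not metrizable
-/

set_option autoImplicit false

namespace Pool.Agent.N713.WC

open Pool.Agent.N585.WC Cardinal Set Topology

theorem stmMetr : StmMetr := by
  classical
  intro J hJ hM
  have hfc : (𝓝 (0 : J → ZMod 2)).IsCountablyGenerated := FirstCountableTopology.nhds_generated_countable _
  obtain ⟨N, hN⟩ := (𝓝 (0 : J → ZMod 2)).exists_antitone_basis
  have h1 : ∀ n, ∃ I : Set J, I.Finite ∧ ∀ y : J → ZMod 2, (∀ i ∈ I, y i = 0) → y ∈ N n := by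
    intro n
    have h2 : N n ∈ 𝓝 (0 : J → ZMod 2) := hN.1.mem_of_mem trivial
    rw [nhds_pi, Filter.mem_pi] at h2
    obtain ⟨I, hI, t, ht, hs⟩ := h2
    refine ⟨I, hI, fun y hy => hs ?_⟩
    intro i hi
    rw [hy i hi]
    exact mem_of_mem_nhds (ht i)
  choose I hI hIN using h1
  have hc : (⋃ n, I n).Countable := countable_iUnion fun n => (hI n).countable
  have hne : ∃ j, j ∉ ⋃ n, I n := by
    by_contra hcon
    push Not at hcon
    have hu : (Set.univ : Set J).Countable := hc.mono fun j _ => hcon j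
    have h2 : #J ≤ ℵ₀ := by
      rw [Cardinal.mk_le_aleph0_iff]
      exact Set.countable_univ_iff.1 hu
    rw [hJ] at h2
    exact absurd h2 (not_le.2 Cardinal.aleph0_lt_aleph_one)
  obtain ⟨j, hj⟩ := hne
  have hW : {y : J → ZMod 2 | y j = 0} ∈ 𝓝 (0 : J → ZMod 2) := by
    have hcont : Continuous fun y : J → ZMod 2 => y j := continuous_apply j
    have h3 : IsOpen {y : J → ZMod 2 | y j = 0} :=
      (isOpen_discrete ({0} : Set (ZMod 2))).preimage hcont
    exact h3.mem_nhds rfl
  obtain ⟨n, -, hn⟩ := hN.1.mem_iff.1 hW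
  have h4 : (Pi.single j 1 : J → ZMod 2) ∈ N n := by
    apply hIN n
    intro i hi
    have hij : i ≠ j := by
      rintro rfl
      exact hj (mem_iUnion.2 ⟨n, hi⟩)
    exact Pi.single_eq_of_ne hij 1
  have h5 : (Pi.single j 1 : J → ZMod 2) j = 0 := hn h4
  rw [Pi.single_eq_same] at h5
  exact one_ne_zero h5

end Pool.Agent.N713.WC
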